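import Pool.Agent.Helper82.PN.Goals

/-!
PROJECT PN, packet CLSD: the set of the times at which a path of polytopes is a simplex is closed.
-/

open MeasureTheory Set
open scoped ENNReal
open Pool.Agent.Helper47.AQ Pool.Agent.Helper82.PN

noncomputable section

namespace Pool.Agent.Helper36.PN

/-- the convex hull of a finite family is the image of the standard simplex -/
theorem mem_hull_iff {τ : Type} [Fintype τ] {E : Type*} [AddCommGroup E] [Module ℝ E]
    (f : τ → E) (z : E) :
    z ∈ convexHull ℝ (range f) ↔ ∃ μ ∈ stdSimplex ℝ τ, z = ∑ k, μ k • f k := by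
  classical
  let Φ : (τ → ℝ) →ₗ[ℝ] E :=
    { toFun := fun μ => ∑ k, μ k • f k
      map_add' := fun μ ν => by
        simp only [Pi.add_apply, add_smul, Finset.sum_add_distrib]
      map_smul' := fun c μ => by
        simp only [Pi.smul_apply, smul_eq_mul, mul_smul, Finset.smul_sum, RingHom.id_apply] }
  have h1 : Φ '' stdSimplex ℝ τ = convexHull ℝ (range f) := by
    rw [← convexHull_basis_eq_stdSimplex, LinearMap.image_convexHull, ← Set.range_comp]
    congr 1
    ext y
    simp only [mem_range, Function.comp]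
    have h2 : ∀ k : τ, Φ (fun j => if k = j then (1 : ℝ) else 0) = f k := by
      intro k
      change ∑ j, (if k = j then (1 : ℝ) else 0) • f j = f k
      rw [Finset.sum_eq_single k]
      · simp
      · intro j _ hj
        rw [if_neg (Ne.symm hj), zero_smul]
      · intro h
        exact absurd (Finset.mem_univ k) h
    simp only [h2]
  rw [← h1]
  constructor
  · rintro ⟨μ, hμ, rfl⟩
    exact ⟨μ, hμ, rfl⟩
  · rintro ⟨μ, hμ, rfl⟩
    exact ⟨μ, hμ, rfl⟩

/-- the vertices of a simplex are among the points whose hull it is -/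
theorem vertex_mem {ι σ τ : Type} [Fintype ι] [Fintype τ] (b : AffineBasis τ ℝ (ι → ℝ))
    (x : σ → ι → ℝ) (h : convexHull ℝ (range x) = convexHull ℝ (range b)) (k : τ) :
    ∃ i, x i = b k := by
  by_contra hcon
  push Not at hcon
  have h1 : range x ⊆ (b.coord k) ⁻¹' Iio 1 := by
    rintro _ ⟨i, rfl⟩
    have hi : x i ∈ convexHull ℝ (range b) := by
      rw [← h]
      exact subset_convexHull ℝ _ (mem_range_self i)
    rw [AffineBasis.convexHull_eq_nonneg_coord] at hi
    have hs := b.sum_coord_apply_eq_one (x i)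
    rw [mem_preimage, mem_Iio]
    rcases lt_or_ge (b.coord k (x i)) 1 with h2 | h2
    · exact h2
    · exfalso
      classical
      rw [← Finset.add_sum_erase _ _ (Finset.mem_univ k)] at hs
      have h3 : 0 ≤ ∑ j ∈ Finset.univ.erase k, b.coord j (x i) :=
        Finset.sum_nonneg fun j _ => hi j
      have h4 : ∑ j ∈ Finset.univ.erase k, b.coord j (x i) = 0 := by linarith
      have h5 := (Finset.sum_eq_zero_iff_of_nonneg fun j _ => hi j).1 h4
      apply hcon i
      refine b.ext_elem fun j => ?_
      by_cases hj : j = k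
      · subst hj
        rw [AffineBasis.coord_apply_eq]
        linarith
      · rw [AffineBasis.coord_apply_ne _ hj]
        exact h5 j (Finset.mem_erase.2 ⟨hj, Finset.mem_univ j⟩)
  have h2 : convexHull ℝ (range x) ⊆ (b.coord k) ⁻¹' Iio 1 :=
    convexHull_min h1 ((convex_Iio 1).affine_preimage (b.coord k))
  have h3 : b k ∈ convexHull ℝ (range x) := by
    rw [h]
    exact subset_convexHull ℝ _ (mem_range_self k)
  have h4 := h2 h3
  rw [mem_preimage, mem_Iio, AffineBasis.coord_apply_eq] at h4
  exact lt_irrefl _ h4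

/-- a polytope with nonempty interior is a simplex iff it is the hull of `n + 1` of its points -/
theorem simplex_iff {ι σ : Type} [Fintype ι] [Fintype σ] (x : σ → ι → ℝ)
    (hint : (interior (KH x)).Nonempty) :
    IsSimplex (KH x) ↔ ∃ I : Finset σ, I.card = Fintype.card ι + 1 ∧
      ∀ i, x i ∈ convexHull ℝ (range fun k : I => x k) := by
  classical
  constructor
  · rintro ⟨_, τ, hτ, w, hw, hK⟩
    have htop : affineSpan ℝ (range w) = ⊤ := by
      rw [← interior_convexHull_nonempty_iff_affineSpan_eq_top, ← hK]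
      exact hint
    let b : AffineBasis τ ℝ (ι → ℝ) := ⟨w, hw, htop⟩
    have hb : convexHull ℝ (range x) = convexHull ℝ (range b) := hK
    have hv := vertex_mem b x hb
    choose e he using hv
    have hinj : Function.Injective e := by
      intro k l hkl
      apply b.ind.injective
      rw [← he k, ← he l, hkl]
    refine ⟨Finset.univ.image e, ?_, fun i => ?_⟩
    · rw [Finset.card_image_of_injective _ hinj, Finset.card_univ, b.card_eq_finrank_add_one,
        Module.finrank_fintype_fun_eq_card]
    · have h1 : x i ∈ convexHull ℝ (range b) := by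
        rw [← hb]
        exact subset_convexHull ℝ _ (mem_range_self i)
      refine convexHull_mono ?_ h1
      rintro _ ⟨k, rfl⟩
      exact ⟨⟨e k, Finset.mem_image_of_mem e (Finset.mem_univ k)⟩, he k⟩
  · rintro ⟨I, hI, hx⟩
    have hK : KH x = convexHull ℝ (range fun k : I => x k) := by
      apply Subset.antisymm
      · refine convexHull_min ?_ (convex_convexHull ℝ _)
        rintro _ ⟨i, rfl⟩
        exact hx i
      · refine convexHull_mono ?_
        rintro _ ⟨k, rfl⟩
        exact mem_range_self _
    refine ⟨hint, I, inferInstance, fun k : I => x k, ?_, hK⟩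
    have htop : affineSpan ℝ (range fun k : I => x k) = ⊤ := by
      rw [← interior_convexHull_nonempty_iff_affineSpan_eq_top, ← hK]
      exact hint
    rw [affineIndependent_iff_finrank_vectorSpan_eq ℝ (fun k : I => x k)
      (n := Fintype.card ι) (by rw [Fintype.card_coe, hI])]
    rw [← direction_affineSpan, htop, AffineSubspace.direction_top, finrank_top,
      Module.finrank_fintype_fun_eq_card]

theorem gCLSD : CLSD := by
  intro ι σ _ _ γ a b hγ hint
  classical
  have hγi : ∀ i : σ, Continuous fun t => γ t i := fun i => (continuous_apply i).comp hγ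
  have hcl : ∀ (I : Finset σ) (i : σ), IsClosed {t : ℝ | t ∈ Icc a b ∧
      γ t i ∈ convexHull ℝ (range fun k : I => γ t k)} := by
    intro I i
    have h1 : IsClosed {q : ℝ × (I → ℝ) | γ q.1 i = ∑ k : I, q.2 k • γ q.1 k} := by
      refine isClosed_eq ((hγi i).comp continuous_fst) ?_
      refine continuous_finsetSum _ fun k _ => ?_
      exact ((continuous_apply k).comp continuous_snd).smul ((hγi k).comp continuous_fst)
    have h2 : IsCompact ((Icc a b ×ˢ stdSimplex ℝ I) ∩
        {q : ℝ × (I → ℝ) | γ q.1 i = ∑ k : I, q.2 k • γ q.1 k}) :=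
      (isCompact_Icc.prod (isCompact_stdSimplex ℝ I)).inter_right h1
    have h3 := (h2.image continuous_fst).isClosed
    convert h3 using 1
    ext t
    simp only [mem_ofPred_eq, mem_image, mem_inter_iff, mem_prod, mem_hull_iff]
    constructor
    · rintro ⟨ht, μ, hμ, hz⟩
      exact ⟨(t, μ), ⟨⟨ht, hμ⟩, hz⟩, rfl⟩
    · rintro ⟨q, ⟨⟨ht, hμ⟩, hz⟩, rfl⟩
      exact ⟨ht, q.2, hμ, hz⟩
  have hset : {t : ℝ | t ∈ Icc a b ∧ IsSimplex (KH (γ t))} =
      ⋃ I ∈ (Finset.univ.filter fun I : Finset σ => I.card = Fintype.card ι + 1),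
        (Icc a b ∩ ⋂ i, {t : ℝ | t ∈ Icc a b ∧
          γ t i ∈ convexHull ℝ (range fun k : I => γ t k)}) := by
    ext t
    simp only [mem_ofPred_eq, mem_iUnion, Finset.mem_filter, Finset.mem_univ, true_and,
      mem_inter_iff, mem_iInter, exists_prop]
    constructor
    · rintro ⟨ht, hs⟩
      obtain ⟨I, hI, hx⟩ := (simplex_iff (γ t) (hint t ht)).1 hs
      exact ⟨I, hI, ht, fun i => ⟨ht, hx i⟩⟩
    · rintro ⟨I, hI, ht, hx⟩
      exact ⟨ht, (simplex_iff (γ t) (hint t ht)).2 ⟨I, hI, fun i => (hx i).2⟩⟩
  rw [hset]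
  refine isClosed_biUnion_finset fun I _ => ?_
  exact isClosed_Icc.inter (isClosed_iInter fun i => hcl I i)

end Pool.Agent.Helper36.PN
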